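import Mathlib

/-!
# MP_28b4a6_lc: no maximal triangle-free colouring of a set of size `ℵ₁` under `MA_ℵ₁`

If the forcing axiom for `κ` dense sets holds for a class of posets that contains all countable
posets (such as the ccc posets, which gives `MA_κ`, or the proper posets, which gives `PFA` when
`κ = ℵ₁`), then no triangle-free colouring `c : [X]² → ω` of any set `X` with `|X| ≤ κ` is
maximal.  No continuity or Borelness of `c` is needed.
-/

namespace Pool.Agent.Results.MP_28b4a6_lc.NoMaxTriangleFree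

open Cardinal

/-- `D` is a dense subset of the poset `P`. -/
def IsDense {P : Type} [PartialOrder P] (D : Set P) : Prop :=
  ∀ p : P, ∃ q ∈ D, q ≤ p

/-- `G` is a filter on the poset `P`: nonempty, closed upwards, and any two elements of `G` have
a common lower bound in `G`. -/
def IsPosetFilter {P : Type} [PartialOrder P] (G : Set P) : Prop :=
  G.Nonempty ∧ (∀ p ∈ G, ∀ q, p ≤ q → q ∈ G) ∧ (∀ p ∈ G, ∀ q ∈ G, ∃ r ∈ G, r ≤ p ∧ r ≤ q)

/-- A poset is ccc if all its antichains (sets of pairwise incompatible elements) are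
countable. -/
def IsCCC (P : Type) [PartialOrder P] : Prop :=
  ∀ A : Set P, (∀ p ∈ A, ∀ q ∈ A, p ≠ q → ¬ ∃ r, r ≤ p ∧ r ≤ q) → A.Countable

/-- The forcing axiom `FA_κ(Γ)` for a class `Γ` of posets: for every nonempty poset `P` in `Γ` and
every family of at most `κ` dense subsets of `P`, some filter on `P` meets all of them. -/
def ForcingAxiom (κ : Cardinal.{0}) (Γ : ∀ (P : Type) [PartialOrder P], Prop) : Prop :=
  ∀ (P : Type) [PartialOrder P] [Nonempty P], Γ P →
    ∀ 𝓓 : Set (Set P), #𝓓 ≤ κ → (∀ D ∈ 𝓓, IsDense D) →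
      ∃ G : Set P, IsPosetFilter G ∧ ∀ D ∈ 𝓓, (G ∩ D).Nonempty

/-- A colouring of `[X]²` by natural numbers is a function on unordered pairs of elements of `X`
(its values at the diagonal pairs `s(x, x)` are never used). It is triangle-free if there are no
three distinct points all of whose pairs get the same colour. -/
def TriangleFree {X : Type} (c : Sym2 X → ℕ) : Prop :=
  ¬ ∃ x y z : X, x ≠ y ∧ y ≠ z ∧ x ≠ z ∧ c s(x, y) = c s(y, z) ∧ c s(y, z) = c s(x, z)

/-- A colouring `c` of `[X]²` is maximal if no colouring `d` of `[X ∪ {y}]²` with a new point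
`y ∉ X` (here the point `none` of `Option X`) that extends `c` is triangle-free. -/
def Maximal {X : Type} (c : Sym2 X → ℕ) : Prop :=
  ∀ d : Sym2 (Option X) → ℕ, (∀ x y : X, x ≠ y → d s(some x, some y) = c s(x, y)) →
    ¬ TriangleFree d

/-- A function `f : X → ω` without bad pairs shows that `c` is not maximal. -/
theorem not_maximal_of_good {X : Type} (c : Sym2 X → ℕ) (hc : TriangleFree c) (f : X → ℕ)
    (hf : ∀ x z : X, x ≠ z → f x = f z → c s(x, z) ≠ f x) : ¬ Maximal c := by
  intro hmax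
  let g : Option X → Option X → ℕ := fun a b =>
    match a, b with
    | some x, some y => c s(x, y)
    | some x, none => f x
    | none, some y => f y
    | none, none => 0
  have hg : ∀ a b, g a b = g b a := by
    intro a b
    cases a <;> cases b <;> simp [g, Sym2.eq_swap]
  let d : Sym2 (Option X) → ℕ := Sym2.lift ⟨g, hg⟩
  have hd : ∀ a b, d s(a, b) = g a b := fun a b => rfl
  refine hmax d (fun x y _ => rfl) ?_
  rintro ⟨a, b, e, hab, hbe, hae, h1, h2⟩
  rw [hd, hd] at h1
  rw [hd, hd] at h2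
  match a, b, e, hab, hbe, hae, h1, h2 with
  | some x, some y, some z, hab, hbe, hae, h1, h2 =>
    exact hc ⟨x, y, z, fun h => hab (by rw [h]), fun h => hbe (by rw [h]),
      fun h => hae (by rw [h]), h1, h2⟩
  | none, some y, some z, hab, hbe, hae, h1, h2 =>
    -- g none y = g y z = g none z
    have h1' : f y = c s(y, z) := h1
    have h2' : c s(y, z) = f z := h2
    exact hf y z (fun h => hbe (by rw [h])) (h1'.trans h2') h1'.symm
  | some x, none, some z, hab, hbe, hae, h1, h2 =>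
    have h1' : f x = f z := h1
    have h2' : f z = c s(x, z) := h2
    exact hf x z (fun h => hae (by rw [h])) h1' (h1'.trans h2').symm
  | some x, some y, none, hab, hbe, hae, h1, h2 =>
    have h1' : c s(x, y) = f y := h1
    have h2' : f y = f x := h2
    exact hf x y (fun h => hab (by rw [h])) h2'.symm (h1'.trans h2')
  | none, none, _, hab, _, _, _, _ => exact hab rfl
  | none, some _, none, _, _, hae, _, _ => exact hae rfl
  | some _, none, none, _, hbe, _, _, _ => exact hbe rfl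

/-- Case 1: a countable set `A` such that all `y` have infinitely many colours to points
of `A`. -/
theorem good_of_generic (κ : Cardinal.{0})
    (hFA : ForcingAxiom κ (fun P _ => Countable P)) {X : Type} (hX : #X ≤ κ)
    (c : Sym2 X → ℕ) (hc : TriangleFree c) (A : Set X) (hA : A.Countable)
    (hinf : ∀ y : X, {n : ℕ | ∃ a ∈ A, a ≠ y ∧ c s(a, y) = n}.Infinite) :
    ∃ f : X → ℕ, ∀ x z : X, x ≠ z → f x = f z → c s(x, z) ≠ f x := by
  classical
  have : Countable A := hA.to_subtype
  let Q : Type := {s : Finset (ℕ × A) // ∀ p ∈ s, ∀ q ∈ s, p.1 = q.1 → p.2 = q.2}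
  let P : Type := Qᵒᵈ
  have : Countable P := inferInstanceAs (Countable Q)
  have : Nonempty P := ⟨OrderDual.toDual ⟨∅, by simp⟩⟩
  let D : X → Set P := fun y =>
    {s | ∃ p ∈ (OrderDual.ofDual s).1, (p.2 : X) ≠ y ∧ c s((p.2 : X), y) = p.1}
  obtain ⟨G, hG, hGD⟩ := hFA P ‹Countable P› (Set.range D) (mk_range_le.trans hX) (by
    rintro _ ⟨y, rfl⟩
    intro s
    obtain ⟨n, hn, hns⟩ := (hinf y).exists_notMem_finset ((OrderDual.ofDual s).1.image Prod.fst)
    obtain ⟨a, ha, hay, hcay⟩ := hn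
    refine ⟨OrderDual.toDual ⟨insert (n, ⟨a, ha⟩) (OrderDual.ofDual s).1, ?_⟩, ?_, ?_⟩
    · intro p hp q hq hpq
      rw [Finset.mem_insert] at hp hq
      rcases hp with rfl | hp <;> rcases hq with rfl | hq
      · rfl
      · exact absurd (Finset.mem_image.2 ⟨q, hq, hpq.symm⟩) hns
      · exact absurd (Finset.mem_image.2 ⟨p, hp, hpq⟩) hns
      · exact (OrderDual.ofDual s).2 p hp q hq hpq
    · exact ⟨(n, ⟨a, ha⟩), Finset.mem_insert_self _ _, hay, hcay⟩
    · change (OrderDual.ofDual s).1 ⊆ _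
      exact Finset.subset_insert _ _)
  have hex : ∀ y : X, ∃ n : ℕ, ∃ s ∈ G, ∃ a : A,
      (n, a) ∈ (OrderDual.ofDual s).1 ∧ (a : X) ≠ y ∧ c s((a : X), y) = n := by
    intro y
    obtain ⟨s, hsG, p, hp, h1, h2⟩ := hGD (D y) ⟨y, rfl⟩
    exact ⟨p.1, s, hsG, p.2, hp, h1, h2⟩
  choose f hf using hex
  refine ⟨f, fun x z hxz hfxz hbad => ?_⟩
  obtain ⟨s, hs, a, has, hax, hcax⟩ := hf x
  obtain ⟨t, ht, b, hbt, hbz, hcbz⟩ := hf z
  obtain ⟨r, hr, hrs, hrt⟩ := hG.2.2 s hs t ht
  have h1 : (f x, a) ∈ (OrderDual.ofDual r).1 := (show (OrderDual.ofDual s).1 ⊆ _ from hrs) has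
  have h2 : (f z, b) ∈ (OrderDual.ofDual r).1 := (show (OrderDual.ofDual t).1 ⊆ _ from hrt) hbt
  have hab : a = b := (OrderDual.ofDual r).2 _ h1 _ h2 hfxz
  subst hab
  exact hc ⟨a, x, z, hax, hxz, hbz, by rw [hcax, hbad], by rw [hbad, hcbz, hfxz]⟩

/-- Case 2: some finite number of colours suffices on all finite sets. -/
theorem good_of_bounded {X : Type} (c : Sym2 X → ℕ) (hc : TriangleFree c) (m : ℕ)
    (hm : ∀ F : Finset X, ∃ y : X, ∀ a ∈ F, a ≠ y → c s(a, y) < m) :
    ∃ f : X → ℕ, ∀ x z : X, x ≠ z → f x = f z → c s(x, z) ≠ f x := by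
  classical
  choose y hy using hm
  let g : Finset X → (a : X) → Fin (m + 1) := fun F a =>
    if h : a ≠ y F ∧ c s(a, y F) < m then ⟨c s(a, y F), by omega⟩ else Fin.last m
  obtain ⟨χ, hχ⟩ := Finset.rado_selection g
  refine ⟨fun x => (χ x : ℕ), fun x z hxz hfxz hbad => ?_⟩
  obtain ⟨t, ht, hχt⟩ := hχ {x, z}
  have hx : x ∈ ({x, z} : Finset X) := by simp
  have hz : z ∈ ({x, z} : Finset X) := by simp
  have hgx : χ x = g t x := hχt x hx
  have hgz : χ z = g t z := hχt z hz
  have val : ∀ a ∈ t, a ≠ y t → ((g t a : Fin (m + 1)) : ℕ) = c s(a, y t) := by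
    intro a ha hay
    have : a ≠ y t ∧ c s(a, y t) < m := ⟨hay, hy t a ha hay⟩
    simp only [g]
    rw [dif_pos this]
  have valy : ((g t (y t) : Fin (m + 1)) : ℕ) = m := by
    simp [g]
  have hfxz' : ((g t x : Fin (m + 1)) : ℕ) = g t z := by rw [← hgx, ← hgz]; exact hfxz
  have hbad' : c s(x, z) = ((g t x : Fin (m + 1)) : ℕ) := by rw [← hgx]; exact hbad
  by_cases hxy : x = y t
  · have hzy : z ≠ y t := fun h => hxz (hxy.trans h.symm)
    rw [hxy, valy, val z (ht hz) hzy] at hfxz'
    have := hy t z (ht hz) hzy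
    omega
  · by_cases hzy : z = y t
    · rw [hzy, valy, val x (ht hx) hxy] at hfxz'
      have := hy t x (ht hx) hxy
      omega
    · rw [val x (ht hx) hxy] at hfxz' hbad'
      rw [val z (ht hz) hzy] at hfxz'
      exact hc ⟨x, z, y t, hxz, hzy, hxy, by rw [hbad', hfxz'], hfxz'.symm⟩

/-- **Theorem.** Let `Γ` be a class of posets that contains all countable posets (for example the
ccc posets or the proper posets) and let `κ` be a cardinal for which the forcing axiom `FA_κ(Γ)`
holds (for `κ = ℵ₁` this is `MA_ℵ₁`, respectively `PFA`). Then no triangle-free colouring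
`c : [X]² → ω` of a set `X` with `|X| ≤ κ` is maximal. -/
theorem result (κ : Cardinal.{0}) (Γ : ∀ (P : Type) [PartialOrder P], Prop)
    (hΓ : ∀ (P : Type) [PartialOrder P], Countable P → Γ P) (hFAΓ : ForcingAxiom κ Γ)
    {X : Type} (hX : #X ≤ κ) (c : Sym2 X → ℕ) (hc : TriangleFree c) : ¬ Maximal c := by
  classical
  have hFA : ForcingAxiom κ (fun P _ => Countable P) :=
    fun P _ _ hP 𝓓 h𝓓 hD => hFAΓ P (hΓ P hP) 𝓓 h𝓓 hD
  by_cases h1 : ∃ A : Set X, A.Countable ∧
      ∀ y : X, {n : ℕ | ∃ a ∈ A, a ≠ y ∧ c s(a, y) = n}.Infinite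
  · obtain ⟨A, hA, hinf⟩ := h1
    obtain ⟨f, hf⟩ := good_of_generic κ hFA hX c hc A hA hinf
    exact not_maximal_of_good c hc f hf
  · push Not at h1
    have h2 : ∃ m : ℕ, ∀ F : Finset X, ∃ y : X, ∀ a ∈ F, a ≠ y → c s(a, y) < m := by
      by_contra hcon
      push Not at hcon
      choose F hF using hcon
      obtain ⟨y, hy⟩ := h1 (⋃ m, (F m : Set X)) (Set.countable_iUnion fun m =>
        (F m).countable_toSet)
      obtain ⟨m, hm⟩ := hy.bddAbove
      obtain ⟨a, ha, hay, hle⟩ := hF (m + 1) y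
      have := hm (show c s(a, y) ∈ _ from ⟨a, Set.mem_iUnion.2 ⟨m + 1, ha⟩, hay, rfl⟩)
      omega
    obtain ⟨m, hm⟩ := h2
    obtain ⟨f, hf⟩ := good_of_bounded c hc m hm
    exact not_maximal_of_good c hc f hf

/-- `MA_κ`: the forcing axiom for `κ` dense sets and all ccc posets. -/
def MA (κ : Cardinal.{0}) : Prop := ForcingAxiom κ (fun P _ => IsCCC P)

/-- The case asked about in the problem: under `MA_ℵ₁` no colouring (continuous, Borel or
arbitrary) of a set of `ℵ₁` reals is maximal triangle-free. -/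
theorem of_MA (hMA : MA ℵ₁) (X : Set ℝ) (hX : #X = ℵ₁) (c : Sym2 X → ℕ) :
    ¬ (TriangleFree c ∧ Maximal c) := fun h =>
  result ℵ₁ (fun P _ => IsCCC P) (fun P _ _ A _ => A.to_countable) hMA hX.le c h.1 h.2

end Pool.Agent.Results.MP_28b4a6_lc.NoMaxTriangleFree
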